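import Mathlib

namespace Pool.Agent.Results.MP_7cc4cd_co.Counter
open SimpleGraph Finset

/-- total domination number. -/
noncomputable def gammaT {V : Type} (G : SimpleGraph V) : ℕ :=
  sInf {n | ∃ S : Finset V, (∀ v, ∃ s ∈ S, G.Adj v s) ∧ S.card = n}

/-- matching number. -/
noncomputable def alpha {V : Type} (G : SimpleGraph V) : ℕ :=
  sSup {n | ∃ M : G.Subgraph, M.IsMatching ∧ M.edgeSet.ncard = n}

def InTriangle {V : Type} (G : SimpleGraph V) (v : V) : Prop :=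
  ∃ a b, G.Adj v a ∧ G.Adj v b ∧ G.Adj a b

def E : List (ℕ × ℕ) := [(0,1), (2,3), (2,4), (3,4), (1,5), (2,5), (2,6), (5,6), (3,7), (4,7),
  (6,9), (8,9), (8,10), (9,10)]

def G : SimpleGraph (Fin 11) where
  Adj a b := (a.val, b.val) ∈ E ∨ (b.val, a.val) ∈ E
  symm := ⟨fun _ _ => Or.symm⟩
  loopless := ⟨by decide⟩

instance : DecidableRel G.Adj := fun a b =>
  inferInstanceAs (Decidable ((a.val, b.val) ∈ E ∨ (b.val, a.val) ∈ E))

lemma low (S : Finset (Fin 11)) (h : ∀ v, ∃ s ∈ S, G.Adj v s) : 5 < S.card := by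
  obtain ⟨a, a1, a2⟩ := h 0
  obtain ⟨b, b1, b2⟩ := h 1
  obtain ⟨c, c1, c2⟩ := h 7
  obtain ⟨d, d1, d2⟩ := h c
  obtain ⟨e, e1, e2⟩ := h 8
  obtain ⟨f, f1, f2⟩ := h e
  have k : ∀ a, G.Adj 0 a → ∀ b, G.Adj 1 b → ∀ c, G.Adj 7 c → ∀ d, G.Adj c d → ∀ e, G.Adj 8 e →
      ∀ f, G.Adj e f → 5 < ({a, b, c, d, e, f} : Finset (Fin 11)).card := by decide +kernel
  exact (k a a2 b b2 c c2 d d2 e e2 f f2).trans_le (card_le_card (by simp [insert_subset_iff, *]))

lemma up (M : G.Subgraph) (h : M.IsMatching) : M.edgeSet.ncard ≤ 5 := by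
  classical
  have h3 := M.spanningCoe.sum_degrees_eq_twice_card_edges
  have h4 : ∀ v, M.spanningCoe.degree v ≤ 1 := by
    intro v
    refine card_le_one.mpr fun a ha b hb => ?_
    rw [mem_neighborFinset] at ha hb
    exact (h (M.edge_vert ha)).unique ha hb
  have h5 := (sum_le_card_nsmul _ _ _ fun v _ => h4 v).trans_eq' h3
  rw [← M.edgeSet_spanningCoe, ← coe_edgeFinset, Set.ncard_coe_finset]
  simp only [card_univ, Fintype.card_fin, smul_eq_mul] at h5
  omega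

theorem result : ∃ (V : Type) (_ : Fintype V) (G : SimpleGraph V), G.Connected ∧
    4 ≤ Fintype.card V ∧ {v | ¬ InTriangle G v}.ncard ≤ 2 ∧ alpha G < gammaT G := by
  refine ⟨Fin 11, inferInstance, G, by decide +kernel, by simp, ?_, ?_⟩
  · refine (Set.ncard_le_ncard (t := {0, 1}) ?_).trans (Set.ncard_pair (by decide)).le
    intro v
    simp only [InTriangle, Set.mem_ofPred_eq, Set.mem_insert_iff, Set.mem_singleton_iff]
    revert v
    decide +kernel
  · refine lt_of_le_of_lt (csSup_le' (by rintro _ ⟨M, h, rfl⟩; exact up M h)) ?_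
    obtain ⟨S, h, e⟩ := Nat.sInf_mem (s := {n | ∃ S : Finset (Fin 11),
      (∀ v, ∃ s ∈ S, G.Adj v s) ∧ S.card = n}) ⟨_, univ, by decide +kernel, rfl⟩
    exact (low S h).trans_eq e

end Pool.Agent.Results.MP_7cc4cd_co.Counter
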